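import Pool.Agent.H256R3.Ex

/-! Averages along the number of prime factors of a perfect power of a binary form need not
converge in a uniquely ergodic system. -/

set_option autoImplicit false

open Filter Topology Set MeasureTheory

namespace Pool.Agent.Results.MP_d352c9_an.PerfectPowersDiverge

/-- A uniquely ergodic map of a topological space: a continuous self-map with exactly one
invariant Borel probability measure. -/
def UniquelyErgodic {X : Type} [TopologicalSpace X] [MeasurableSpace X] (T : X → X) : Prop :=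
  Continuous T ∧ ∃! μ : Measure X, IsProbabilityMeasure μ ∧ MeasurePreserving T μ μ

/-- The value of a binary polynomial with integer coefficients at a pair of natural numbers. -/
noncomputable def value (P : MvPolynomial (Fin 2) ℤ) (m n : ℕ) : ℤ :=
  MvPolynomial.eval ![(m : ℤ), (n : ℤ)] P

/-- The class of forms in the question: homogeneous of some degree, with positive values at all
pairs of positive integers. -/
def PositiveForm (P : MvPolynomial (Fin 2) ℤ) : Prop :=
  (∃ d : ℕ, P.IsHomogeneous d) ∧ ∀ m n : ℕ, 0 < m → 0 < n → 0 < value P m n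

/-- The average `A_N(x)` of `F` along the iterates of `T` of order `Ω (P (m, n))`. -/
noncomputable def average {X : Type} (T : X → X) (F : X → ℂ) (P : MvPolynomial (Fin 2) ℤ) (x : X)
    (N : ℕ) : ℂ :=
  (1 / (N : ℂ) ^ 2) * ∑ m ∈ Finset.Icc 1 N, ∑ n ∈ Finset.Icc 1 N,
    F (T^[ArithmeticFunction.cardFactors (value P m n).toNat] x)

/-- The form `c (x ^ 2 + y ^ 2) ^ k`. -/
noncomputable def powerForm (c k : ℕ) : MvPolynomial (Fin 2) ℤ :=
  MvPolynomial.C (c : ℤ) * (MvPolynomial.X 0 ^ 2 + MvPolynomial.X 1 ^ 2) ^ k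

lemma value_powerForm (c k m n : ℕ) :
    value (powerForm c k) m n = ((c * (m ^ 2 + n ^ 2) ^ k : ℕ) : ℤ) := by
  simp [value, powerForm]

lemma positiveForm_powerForm (c k : ℕ) (hc : 0 < c) : PositiveForm (powerForm c k) := by
  refine ⟨⟨0 + 2 * k, ?_⟩, fun m n hm hn => ?_⟩
  · refine (MvPolynomial.isHomogeneous_C _ _).mul (MvPolynomial.IsHomogeneous.pow ?_ k)
    exact (MvPolynomial.isHomogeneous_X_pow 0 2).add (MvPolynomial.isHomogeneous_X_pow 1 2)
  · rw [value_powerForm]
    have : 0 < c * (m ^ 2 + n ^ 2) ^ k := by positivity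
    exact_mod_cast this

/-- For every `k ≥ 2` there are a uniquely ergodic system and an `F` such that for every `c ≥ 1`
the averages of `F` for the form `c (x ^ 2 + y ^ 2) ^ k` diverge at some point. -/
theorem result (k : ℕ) (hk : 2 ≤ k) :
    ∃ (X : Type) (_ : MetricSpace X) (_ : CompactSpace X) (_ : MeasurableSpace X)
      (_ : BorelSpace X) (T : X → X) (F : C(X, ℂ)), UniquelyErgodic T ∧
      ∀ c : ℕ, 0 < c → PositiveForm (powerForm c k) ∧
        ∃ x : X, ¬ ∃ L : ℂ, Tendsto (average T F (powerForm c k) x) atTop (𝓝 L) := by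
  obtain ⟨X, i1, i2, i3, i4, T, F, hT, hμ, H⟩ := Pool.Agent.H256R3.OM.example_system k hk
  refine ⟨X, i1, i2, i3, i4, T, F, ⟨hT, hμ⟩, fun c hc => ⟨positiveForm_powerForm c k hc, ?_⟩⟩
  obtain ⟨x, hx⟩ := H (ArithmeticFunction.cardFactors c)
    (fun m n => ArithmeticFunction.cardFactors (m ^ 2 + n ^ 2)) Pool.Agent.H256R3.OM.sparse_sq
  refine ⟨x, fun hL => hx ?_⟩
  obtain ⟨L, hL⟩ := hL
  refine ⟨L, hL.congr fun N => ?_⟩
  unfold average
  congr 1
  refine Finset.sum_congr rfl fun m hm => Finset.sum_congr rfl fun n hn => ?_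
  have hm0 : 0 < m := (Finset.mem_Icc.mp hm).1
  have hval : (value (powerForm c k) m n).toNat = c * (m ^ 2 + n ^ 2) ^ k := by
    rw [value_powerForm, Int.toNat_natCast]
  rw [hval, ArithmeticFunction.cardFactors_mul hc.ne' (by positivity),
    ArithmeticFunction.cardFactors_pow]

end Pool.Agent.Results.MP_d352c9_an.PerfectPowersDiverge
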