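import Pool.Agent.H98R3.OM.A1
import Pool.Agent.H98R3.OM.A4

/-!
# MP_d352c9_an: ergodic averages along `Ω` of powers of binary forms need not converge

Full (negative) answer to Q1, for example for `P = (x^2 + y^2)^k` with `k ≥ 2`.
-/

set_option autoImplicit false

open Filter Topology MeasureTheory

namespace Pool.Agent.Results.MP_d352c9_an.PowerForms

/-- Binary homogeneous integer forms with positive values at all pairs of positive integers. -/
def PositiveForm (P : MvPolynomial (Fin 2) ℤ) : Prop :=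
  (∃ d : ℕ, P.IsHomogeneous d) ∧
    ∀ m n : ℕ, 0 < m → 0 < n → 0 < MvPolynomial.eval ![(m : ℤ), (n : ℤ)] P

/-- The averages `A_N(x)`. -/
noncomputable def avg {X : Type} (T : X → X) (P : MvPolynomial (Fin 2) ℤ) (F : X → ℂ) (x : X)
    (N : ℕ) : ℂ :=
  (1 / (N : ℂ) ^ 2) * ∑ m ∈ Finset.Icc 1 N, ∑ n ∈ Finset.Icc 1 N,
    F (T^[ArithmeticFunction.cardFactors (MvPolynomial.eval ![(m : ℤ), (n : ℤ)] P).natAbs] x)

/-- There are a uniquely ergodic system `(X, T)`, a continuous function `F` and a point `x` for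
which the averages `A_N(x)` along `Ω(P(m,n))` have no limit. -/
def Diverges (P : MvPolynomial (Fin 2) ℤ) : Prop :=
  ∃ (X : Type) (_ : MetricSpace X) (_ : CompactSpace X) (_ : MeasurableSpace X)
    (_ : BorelSpace X) (T : X → X), Continuous T ∧
    (∃! μ : Measure X, IsProbabilityMeasure μ ∧ MeasurePreserving T μ μ) ∧
    ∃ (F : C(X, ℂ)) (x : X), ¬ ∃ L : ℂ, Tendsto (avg T P F x) atTop (𝓝 L)

/-- The sum of `1/p` over the primes `p` for which `Q(c,1)` has a root modulo `p` diverges. -/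
def RootPrimesDiverge (Q : MvPolynomial (Fin 2) ℤ) : Prop :=
  ¬ Summable (Set.indicator
      {p : ℕ | p.Prime ∧ ∃ c : ℤ, (p : ℤ) ∣ MvPolynomial.eval ![c, 1] Q}
      (fun p : ℕ => (1 : ℝ) / p))

theorem positive_pow {Q : MvPolynomial (Fin 2) ℤ} (hQ : PositiveForm Q) (k : ℕ) :
    PositiveForm (Q ^ k) := by
  obtain ⟨⟨d, hd⟩, hpos⟩ := hQ
  refine ⟨⟨d * k, hd.pow k⟩, ?_⟩
  intro m n hm hn
  rw [map_pow]
  exact pow_pos (hpos m n hm hn) k

theorem diverges_pow {Q : MvPolynomial (Fin 2) ℤ} (hQ : PositiveForm Q)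
    (hR : RootPrimesDiverge Q) (k : ℕ) (hk : 2 ≤ k) : Diverges (Q ^ k) := by
  have : NeZero k := ⟨by omega⟩
  obtain ⟨⟨d, hd⟩, hpos⟩ := hQ
  have hW : ∀ K N₀ : ℕ, ∃ N : ℕ, N₀ ≤ N ∧ 0 < N ∧
      ((((Finset.Icc 1 N) ×ˢ (Finset.Icc 1 N)).filter
        (fun z : ℕ × ℕ => ArithmeticFunction.cardFactors
          (MvPolynomial.eval ![(z.1 : ℤ), (z.2 : ℤ)] Q).natAbs < K)).card : ℝ) ≤
        1 / 4 * (N : ℝ) ^ 2 := by
    intro K N₀
    exact Pool.Agent.H98R3.OM.sparse_small Q d hd hpos hR K (1 / 4) (by norm_num) N₀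
  obtain ⟨x, hx⟩ := Pool.Agent.H98R3.OM.no_limit k hk
    (fun m n => ArithmeticFunction.cardFactors
      (MvPolynomial.eval ![(m : ℤ), (n : ℤ)] Q).natAbs) hW
  refine ⟨Pool.Agent.H98R3.OM.XX k,
    TopologicalSpace.metrizableSpaceMetric (Pool.Agent.H98R3.OM.XX k),
    inferInstance, inferInstance, inferInstance, Pool.Agent.H98R3.OM.TT k,
    Pool.Agent.H98R3.OM.continuous_TT k, Pool.Agent.H98R3.OM.unique_ergodic k,
    Pool.Agent.H98R3.OM.FF k, x, ?_⟩
  rintro ⟨L, hL⟩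
  apply hx
  refine ⟨L, ?_⟩
  have : avg (Pool.Agent.H98R3.OM.TT k) (Q ^ k) (Pool.Agent.H98R3.OM.FF k) x =
      fun N : ℕ => (1 / (N : ℂ) ^ 2) *
      ∑ m ∈ Finset.Icc 1 N, ∑ n ∈ Finset.Icc 1 N, Pool.Agent.H98R3.OM.FF k
        ((Pool.Agent.H98R3.OM.TT k)^[k * ArithmeticFunction.cardFactors
      (MvPolynomial.eval ![(m : ℤ), (n : ℤ)] Q).natAbs] x) := by
    funext N
    unfold avg
    congr 1
    apply Finset.sum_congr rfl
    intro m _
    apply Finset.sum_congr rfl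
    intro n _
    rw [map_pow, Int.natAbs_pow, ArithmeticFunction.cardFactors_pow]
  rw [← this]
  exact hL

theorem positive_sumSq :
    PositiveForm (MvPolynomial.X 0 ^ 2 + MvPolynomial.X 1 ^ 2) := by
  refine ⟨⟨2, ?_⟩, ?_⟩
  · apply MvPolynomial.IsHomogeneous.add
    · exact MvPolynomial.isHomogeneous_X_pow 0 2
    · exact MvPolynomial.isHomogeneous_X_pow 1 2
  · intro m n hm hn
    simp only [map_add, map_pow, MvPolynomial.eval_X, Matrix.cons_val_zero, Matrix.cons_val_one]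
    positivity

theorem roots_sumSq :
    RootPrimesDiverge (MvPolynomial.X 0 ^ 2 + MvPolynomial.X 1 ^ 2) := by
  intro hs
  have hu : IsUnit (1 : ZMod 4) := isUnit_one
  apply Pool.Agent.H98R3.OM.not_summable_class hu
  refine Summable.of_nonneg_of_le ?_ ?_ hs
  · intro n
    split_ifs <;> positivity
  · intro n
    split_ifs with h
    · rw [Set.indicator_of_mem]
      refine ⟨h.1, ?_⟩
      have : Fact n.Prime := ⟨h.1⟩
      have h4 : n % 4 = 1 := by
        have h1 := h.2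
        have h2 : (n : ZMod 4) = ((1 : ℕ) : ZMod 4) := by rw [h1]; norm_num
        exact (ZMod.natCast_eq_natCast_iff' n 1 4).mp h2
      have hsq : IsSquare (-1 : ZMod n) := ZMod.exists_sq_eq_neg_one_iff.mpr (by omega)
      obtain ⟨r, hr⟩ := hsq
      obtain ⟨c, rfl⟩ := ZMod.intCast_surjective r
      refine ⟨c, ?_⟩
      rw [← ZMod.intCast_zmod_eq_zero_iff_dvd]
      simp only [map_add, map_pow, MvPolynomial.eval_X, Matrix.cons_val_zero,
        Matrix.cons_val_one]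
      push_cast
      linear_combination -hr
    · apply Set.indicator_nonneg
      intro p _
      positivity

/-- **Main theorem.** For every `k ≥ 2` the form `P = (x^2+y^2)^k` is a counterexample, and so is
`P = Q^k` for every admissible form `Q` having roots modulo a set of primes `p` with divergent sum
of `1/p`. -/
theorem result :
    (∀ k : ℕ, 2 ≤ k →
      PositiveForm ((MvPolynomial.X 0 ^ 2 + MvPolynomial.X 1 ^ 2) ^ k) ∧
      Diverges ((MvPolynomial.X 0 ^ 2 + MvPolynomial.X 1 ^ 2) ^ k)) ∧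
    (∀ Q : MvPolynomial (Fin 2) ℤ, PositiveForm Q → RootPrimesDiverge Q →
      ∀ k : ℕ, 2 ≤ k → PositiveForm (Q ^ k) ∧ Diverges (Q ^ k)) := by
  have h2 : ∀ Q : MvPolynomial (Fin 2) ℤ, PositiveForm Q → RootPrimesDiverge Q →
      ∀ k : ℕ, 2 ≤ k → PositiveForm (Q ^ k) ∧ Diverges (Q ^ k) :=
    fun Q hQ hR k hk => ⟨positive_pow hQ k, diverges_pow hQ hR k hk⟩
  exact ⟨fun k hk => h2 _ positive_sumSq roots_sumSq k hk, h2⟩

end Pool.Agent.Results.MP_d352c9_an.PowerForms
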